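import Pool.Agent.Q7.CF.Stm3

/-!
# Project CF (helper7), job LST: the local step
-/

set_option autoImplicit false

open Polynomial Pool.Agent.Q7.CF
open Pool.Agent.Q7.CJ (GalF)

namespace Pool.Agent.Q190.CF.Lst

section

variable {p r : ℕ} [Fact p.Prime] [Ok p r]

omit [Fact p.Prime] [Ok p r] in
theorem sim_symm' {L : Type} [Field L] {D : L} {I J : Ideal (BQ p r D)} (h : Sim I J) : Sim J I := by
  obtain ⟨a, b, ha, hb, e⟩ := h
  exact ⟨b, a, hb, ha, e.symm⟩

theorem sim_trans' {L : Type} [Field L] {D : L} {I J K : Ideal (BQ p r D)} (h : Sim I J) (h' : Sim J K) :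
    Sim I K := by
  obtain ⟨a, b, ha, hb, e⟩ := h
  obtain ⟨c, d, hc, hd, e'⟩ := h'
  refine ⟨c * a, b * d, mul_ne_zero hc ha, mul_ne_zero hb hd, ?_⟩
  rw [← Ideal.span_singleton_mul_span_singleton, ← Ideal.span_singleton_mul_span_singleton, mul_assoc, e,
    mul_left_comm, e', mul_assoc]

omit [Ok p r] in
theorem sim_map' {L M : Type} [Field L] [Field M] {D : L} {D' : M} (φ : L →+* M) (h : φ D = D')
    {I J : Ideal (BQ p r D)} (hs : Sim I J) : Sim (I.map (bc p r φ D D' h)) (J.map (bc p r φ D D' h)) := by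
  obtain ⟨a, b, ha, hb, e⟩ := hs
  have hi := bc_injective p r φ D D' h
  refine ⟨bc p r φ D D' h a, bc p r φ D D' h b, ?_, ?_, ?_⟩
  · rw [Ne, ← map_zero (bc p r φ D D' h)]
    exact fun e => ha (hi e)
  · rw [Ne, ← map_zero (bc p r φ D D' h)]
    exact fun e => hb (hi e)
  · have := congrArg (Ideal.map (bc p r φ D D' h)) e
    rw [Ideal.map_mul, Ideal.map_mul, Ideal.map_span, Ideal.map_span, Set.image_singleton,
      Set.image_singleton] at this
    exact this

omit [Ok p r] [Fact p.Prime] in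
theorem sg_cast {L : Type} [Field L] {D z z' : L} (hz : z = z') (h : z ^ p = 1) (h' : z' ^ p = 1)
    (J : Ideal (BQ p r D)) : J.map (sg p r D z h) = J.map (sg p r D z' h') := by
  subst hz
  rfl

end

/-- every automorphism of the larger algebraic closure restricts to the smaller one -/
theorem exists_restr {F K : Type} [Field F] [Field K] [Algebra F K]
    (ι : AlgebraicClosure F →ₐ[F] AlgebraicClosure K) (τ : GalF K) :
    ∃ σ : GalF F, ∀ x, τ (ι x) = ι (σ x) := by
  let _ : Algebra (AlgebraicClosure F) (AlgebraicClosure K) := ι.toRingHom.toAlgebra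
  have : IsScalarTower F (AlgebraicClosure F) (AlgebraicClosure K) := by
    apply IsScalarTower.of_algebraMap_eq
    intro x
    exact (ι.commutes x).symm
  let χ : AlgebraicClosure K ≃ₐ[F] AlgebraicClosure K := τ.restrictScalars F
  have : Normal F (AlgebraicClosure F) := IsAlgClosure.normal F (AlgebraicClosure F)
  refine ⟨χ.restrictNormal (AlgebraicClosure F), fun x => ?_⟩
  exact (χ.restrictNormal_commutes (AlgebraicClosure F) x).symm

theorem lst (_ : S_DED) (hNMM : S_NMM) (hMV : S_MV) (hBC : S_BC) (hD4H : S_D4H) (hLIM : S_LIM) (hDIC : S_DIC)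
    (hFUN : S_FUN) (_ : S_STR) : S_LST := by
  intro p r _ _ F _ _ ζ hζ D hD α a h ha hα hh K _ _ ι R hR
  have hp := (Fact.out (p := p.Prime))
  have : CharZero K := charZero_of_injective_algebraMap (algebraMap F K).injective
  obtain ⟨d1, d2, d3, d4, d5, d6, d7, d8⟩ := hDIC p r F D hD (AlgebraicClosure K)
  set DK : K := algebraMap F K D with hDK
  have hDK0 : DK ≠ 0 := (_root_.map_ne_zero _).2 hD
  have hDD : algebraMap K (AlgebraicClosure K) DK = algebraMap F (AlgebraicClosure K) D :=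
    (IsScalarTower.algebraMap_apply F K (AlgebraicClosure K) D).symm
  have hζK : IsPrimitiveRoot (algebraMap F K ζ) p := hζ.map_of_injective (algebraMap F K).injective
  have hζζ : algebraMap K (AlgebraicClosure K) (algebraMap F K ζ) = algebraMap F (AlgebraicClosure K) ζ :=
    (IsScalarTower.algebraMap_apply F K (AlgebraicClosure K) ζ).symm
  have hz1 : (algebraMap F (AlgebraicClosure K) ζ) ^ p = 1 := by
    rw [← map_pow, hζ.pow_eq_one, map_one]
  have hz2 : (algebraMap K (AlgebraicClosure K) (algebraMap F K ζ)) ^ p = 1 := by rw [hζζ, hz1]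
  -- functoriality over the algebraic closure
  have hfun := fun (φ : AlgebraicClosure K →ₐ[F] AlgebraicClosure K) =>
    (hFUN p r F D hD (AlgebraicClosure K) (AlgebraicClosure K) (AlgebraicClosure K) φ φ).2.2.2 ζ hζ.pow_eq_one
  -- the ideal of `R`
  obtain ⟨J, hJ⟩ := d1 R
  have hJ0 := d3 R J hJ
  -- the point `R - [ζ] R`
  set om' := om p r D ζ hζ.pow_eq_one (AlgebraicClosure K) with hom
  obtain ⟨Pi, hPi⟩ := d1 (R - om' R)
  have hPi0 := d3 _ Pi hPi
  have hact : ∀ τ : GalF K, act p r D ((τ : AlgebraicClosure K →ₐ[K] AlgebraicClosure K).restrictScalars F)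
      (R - om' R) = R - om' R := by
    intro τ
    obtain ⟨σ, hσ⟩ := exists_restr ι τ
    have h1 := hR τ σ hσ
    have h2 : act p r D ((τ : AlgebraicClosure K →ₐ[K] AlgebraicClosure K).restrictScalars F) R =
        h σ • tT p r D (AlgebraicClosure K) + R := by
      rw [h1, sub_add_cancel]
    obtain ⟨h3, h4⟩ := hfun ((τ : AlgebraicClosure K →ₐ[K] AlgebraicClosure K).restrictScalars F)
    rw [map_sub, h4 R, h2, map_add, map_nsmul, h3]
    abel
  have hsim : ∀ (τ : AlgebraicClosure K ≃ₐ[K] AlgebraicClosure K)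
      (h' : τ (algebraMap F (AlgebraicClosure K) D) = algebraMap F (AlgebraicClosure K) D),
      Sim
        (Pi.map (bc p r ((τ : AlgebraicClosure K →ₐ[K] AlgebraicClosure K) : AlgebraicClosure K →+* AlgebraicClosure K)
          (algebraMap F (AlgebraicClosure K) D) (algebraMap F (AlgebraicClosure K) D) h')) Pi := by
    intro τ h'
    have h1 := d8 (AlgebraicClosure K) ((τ : AlgebraicClosure K →ₐ[K] AlgebraicClosure K).restrictScalars F)
      _ Pi hPi
    rw [hact τ] at h1
    exact (d4 _ _ _ _ h1 hPi).1.1 rfl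
  obtain ⟨J₀, hJ₀, hs₀⟩ := hLIM p r K DK hDK0 (AlgebraicClosure K) (algebraMap F (AlgebraicClosure K) D) hDD Pi hPi0 hsim
  -- moving
  obtain ⟨I, hI, hsI, hI1, _⟩ := (hMV p r K DK hDK0).1 J₀ hJ₀
  obtain ⟨nmul', none, -, nzero, -⟩ := hNMM p r K DK hDK0
  have nmul : ∀ I J : Ideal (BQ p r DK), I ≠ ⊥ → J ≠ ⊥ → nm p r DK (I * J) = nm p r DK I * nm p r DK J :=
    fun I J hI hJ => (nmul' I J hI hJ).1
  have hnI : nm p r DK I ≠ 0 := fun e => hI1 ((nzero I hI).1.1 e)
  set IM := I.map (bc p r (algebraMap K (AlgebraicClosure K)) DK (algebraMap F (AlgebraicClosure K) D) hDD) with hIM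
  have hIM0 : IM ≠ ⊥ := ((hBC p r K (AlgebraicClosure K) _ DK _ hDD hDK0).2 I hI).1
  have hs1 : Sim IM Pi :=
    sim_trans' (sim_map' _ hDD (sim_symm' hsI)) hs₀
  obtain ⟨PI, hPI⟩ := d2 IM hIM0
  have hPIeq : PI = R - om' R := (d4 _ _ _ _ hPI hPi).1.2 hs1
  rw [hPIeq] at hPI
  have hs2 : Sim
      (IM * J.map (sg p r (algebraMap F (AlgebraicClosure K) D) (algebraMap F (AlgebraicClosure K) ζ) hz1)) J := by
    have h1 := (d4 _ _ _ _ hPI (d7 ζ hζ.pow_eq_one hz1 R J hJ)).2
    rw [← hom, sub_add_cancel] at h1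
    exact (d4 _ _ _ _ h1 hJ).1.1 rfl
  rw [sg_cast hζζ.symm hz1 hz2] at hs2
  obtain ⟨ρ, hρ0, ⟨ν, hν0, hρ⟩, hρτ⟩ := hD4H p r K (algebraMap F K ζ) hζK DK hDK0 I hI hnI (AlgebraicClosure K)
    (algebraMap K (AlgebraicClosure K)) (algebraMap F (AlgebraicClosure K) D) hDD hz2 J hJ0 hs2
  -- the classes of the powers of `t1`
  have hT : ∀ n : ℕ, IsCls p r D (n • tT p r D (AlgebraicClosure K)) (t1 p r (algebraMap F (AlgebraicClosure K) D) ^ n) := by
    intro n
    induction n with
    | zero =>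
      rw [zero_nsmul, pow_zero, Ideal.one_eq_top]
      exact d5
    | succ n ih =>
      rw [succ_nsmul, pow_succ]
      exact (d4 _ _ _ _ ih d6).2
  -- the invariant element
  have hfix : ∀ τ : GalF K, τ (ι α ^ r ^ 2 * ρ) = ι α ^ r ^ 2 * ρ := by
    intro τ
    obtain ⟨σ, hσ⟩ := exists_restr ι τ
    have hτD : (((τ : AlgebraicClosure K →ₐ[K] AlgebraicClosure K) : AlgebraicClosure K →+* AlgebraicClosure K))
        (algebraMap F (AlgebraicClosure K) D) = algebraMap F (AlgebraicClosure K) D := by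
      rw [← hDD]
      exact τ.commutes DK
    have hbij : Function.Bijective
        (((τ : AlgebraicClosure K →ₐ[K] AlgebraicClosure K) : AlgebraicClosure K →+* AlgebraicClosure K)) :=
      τ.bijective
    have h1 : act p r D ((τ : AlgebraicClosure K →ₐ[K] AlgebraicClosure K).restrictScalars F) R =
        R + h σ • tT p r D (AlgebraicClosure K) := by
      have := hR τ σ hσ
      rw [this]
      abel
    have h2 := d8 (AlgebraicClosure K) ((τ : AlgebraicClosure K →ₐ[K] AlgebraicClosure K).restrictScalars F) R J hJ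
    rw [h1] at h2
    have h3 := (d4 _ _ _ _ hJ (hT (h σ))).2
    have h4 := (d4 _ _ _ _ h2 h3).1.1 rfl
    have h5 := (hρτ (((τ : AlgebraicClosure K →ₐ[K] AlgebraicClosure K) : AlgebraicClosure K →+* AlgebraicClosure K))
      hbij (fun x => τ.commutes x) hτD).2 (h σ) h4
    have h6 : τ (ι α) = algebraMap K (AlgebraicClosure K) (algebraMap F K ζ) ^ h σ * ι α := by
      rw [hσ α, hh σ, map_mul, map_pow, hζζ, AlgHom.commutes]
    rw [map_mul, map_pow, h6]
    have h7 : ρ = algebraMap K (AlgebraicClosure K) (algebraMap F K ζ) ^ (r ^ 2 * h σ) * τ ρ := h5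
    calc (algebraMap K (AlgebraicClosure K) (algebraMap F K ζ) ^ h σ * ι α) ^ r ^ 2 * τ ρ
        = ι α ^ r ^ 2 * (algebraMap K (AlgebraicClosure K) (algebraMap F K ζ) ^ (r ^ 2 * h σ) * τ ρ) := by
          rw [mul_pow, ← pow_mul, mul_comm (h σ)]
          ring
      _ = ι α ^ r ^ 2 * ρ := by rw [← h7]
  have : IsGalois K (AlgebraicClosure K) := IsAlgClosure.isGalois K (AlgebraicClosure K)
  obtain ⟨b, hb⟩ := (InfiniteGalois.mem_range_algebraMap_iff_fixed (k := K) (ι α ^ r ^ 2 * ρ)).2 hfix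
  have hα0 : ι α ≠ 0 := by
    intro e
    have h1 : α ^ p = 0 := by
      have : α = 0 := by
        apply ι.toRingHom.injective
        rw [map_zero]
        exact e
      rw [this, zero_pow hp.ne_zero]
    rw [hα] at h1
    exact ha ((map_eq_zero _).1 h1)
  have hb0 : b ≠ 0 := by
    rintro rfl
    rw [map_zero] at hb
    exact (mul_ne_zero (pow_ne_zero _ hα0) hρ0) hb.symm
  have haK0 : algebraMap F K a ≠ 0 := (_root_.map_ne_zero _).2 ha
  have hαp : (ι α) ^ p = algebraMap K (AlgebraicClosure K) (algebraMap F K a) := by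
    rw [← map_pow, hα, AlgHom.commutes, IsScalarTower.algebraMap_apply F K (AlgebraicClosure K) a]
  have hbp : b ^ p = algebraMap F K a ^ r ^ 2 * (nm p r DK I ^ (r + 1) * ν ^ p) := by
    apply (algebraMap K (AlgebraicClosure K)).injective
    rw [map_pow, hb, mul_pow, hρ, ← pow_mul, mul_comm (r ^ 2) p, pow_mul, hαp, ← map_pow, ← map_mul]
  -- the powers of the ideal `I`
  have hpow : ∀ n : ℕ, I ^ n ≠ ⊥ ∧ nm p r DK (I ^ n) = nm p r DK I ^ n := by
    intro n
    induction n with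
    | zero =>
      rw [pow_zero, pow_zero, Ideal.one_eq_top]
      exact ⟨top_ne_bot, none⟩
    | succ n ih =>
      refine ⟨?_, ?_⟩
      · rw [pow_succ, Ne, ← Ideal.zero_eq_bot, mul_eq_zero, Ideal.zero_eq_bot, not_or]
        exact ⟨ih.1, hI⟩
      · rw [pow_succ, nmul _ _ ih.1 hI, ih.2, pow_succ]
  -- an inverse of `r ^ 2` modulo `p`
  obtain ⟨m, k, hmk⟩ : ∃ m k : ℕ, r ^ 2 * m = 1 + p * k := by
    have hr1 : 1 ≤ r := Ok.h1 (p := p)
    have hr2 : r + 2 ≤ p := Ok.h2
    have hcop : Nat.Coprime (r ^ 2) p :=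
      Nat.Coprime.pow_left 2 ((hp.coprime_iff_not_dvd.2 fun hd => by
        have := Nat.le_of_dvd (by omega) hd
        omega).symm)
    obtain ⟨m, -, hm⟩ := Nat.exists_mul_mod_eq_one_of_coprime hcop hp.one_lt
    refine ⟨m, r ^ 2 * m / p, ?_⟩
    have h1 := Nat.mod_add_div (r ^ 2 * m) p
    rw [hm] at h1
    exact h1.symm
  have hq : 1 + (p - 1) = p := by
    have := hp.one_lt
    omega
  refine ⟨haK0, I ^ ((p - 1) * ((r + 1) * m)), (hpow _).1,
    nm p r DK I ^ ((r + 1) * m) * algebraMap F K a ^ k * ν ^ m / b ^ m, ?_, ?_⟩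
  · exact div_ne_zero (mul_ne_zero (mul_ne_zero (pow_ne_zero _ hnI) (pow_ne_zero _ haK0))
      (pow_ne_zero _ hν0)) (pow_ne_zero _ hb0)
  · rw [(hpow _).2]
    have e1 : (b ^ m) ^ p = algebraMap F K a * (algebraMap F K a ^ k) ^ p *
        (nm p r DK I ^ ((r + 1) * m) * (ν ^ m) ^ p) := by
      calc (b ^ m) ^ p = (b ^ p) ^ m := pow_right_comm b m p
        _ = (algebraMap F K a) ^ (r ^ 2 * m) * (nm p r DK I ^ ((r + 1) * m) * (ν ^ m) ^ p) := by
          rw [hbp, mul_pow, mul_pow, ← pow_mul, ← pow_mul, pow_right_comm ν p m]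
        _ = _ := by
          rw [hmk, pow_add, pow_one, pow_mul, pow_right_comm]
    have e2 : nm p r DK I ^ ((r + 1) * m) * nm p r DK I ^ ((p - 1) * ((r + 1) * m)) =
        (nm p r DK I ^ ((r + 1) * m)) ^ p := by
      rw [← pow_add, ← pow_mul]
      congr 1
      calc (r + 1) * m + (p - 1) * ((r + 1) * m) = (1 + (p - 1)) * ((r + 1) * m) := by ring
        _ = (r + 1) * m * p := by rw [hq, mul_comm]
    rw [div_pow, mul_pow, mul_pow, mul_div_assoc', eq_div_iff (pow_ne_zero p (pow_ne_zero m hb0)), e1, ← e2]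
    ring

end Pool.Agent.Q190.CF.Lst
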