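import Pool.Agent.Q7.CF.Stm
import Pool.Agent.Q7.CJ.Stm

/-!
# Project CF (helper7), job RPG: two points of the curve `v^p = u (D - u)^r` are orthogonal (after `Pool/Agent/Q198/CJ/RPT.lean` of helper198)
-/

set_option autoImplicit false

namespace Pool.Agent.Q190.CF

open Polynomial Pool.Agent.Q7.CF
open Pool.Agent.Q7.CJ (Nr S_RS)

theorem rpg : S_RS → S_RTG → S_RPG := by
  intro hRS hRT p r _ hok K _ _ ζ hζ
  have hp := (Fact.out (p := p.Prime))
  have hr1 : 1 ≤ r := hok.h1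
  have hr2 : r + 2 ≤ p := hok.h2
  have hp2 : p ≠ 2 := by omega
  obtain ⟨sym, mulr, mull, zz, ss, sq, one, st, -, -⟩ := hRS p hp2 K ζ hζ
  have rt := hRT p hp2 K ζ hζ
  have hodd := hp.odd_of_ne_two hp2
  have hm1 : (-1 : K) ^ p = -1 := hodd.neg_one_pow
  have hm0 : (-1 : K) ≠ 0 := neg_ne_zero.2 one_ne_zero
  -- the exponent `s`, `s r ≡ -1`
  obtain ⟨s, k, hsk⟩ : ∃ s k : ℕ, s * r + 1 = p * k := by
    have hnd : ¬ p ∣ r := fun h => by
      have := Nat.le_of_dvd hr1 h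
      omega
    have hcop : Nat.Coprime r p := ((Nat.Prime.coprime_iff_not_dvd hp).2 hnd).symm
    obtain ⟨t, -, ht⟩ := Nat.exists_mul_mod_eq_one_of_coprime hcop hp.one_lt
    have h1 := Nat.div_add_mod (r * t) p
    rw [ht] at h1
    refine ⟨t * (p - 1), t * r - r * t / p, ?_⟩
    obtain ⟨q, hq⟩ : ∃ q, p = q + 1 := ⟨p - 1, (Nat.sub_add_cancel hp.one_le).symm⟩
    generalize r * t / p = e at h1
    have h2 : e ≤ t * r := by
      rw [mul_comm t r, ← h1]
      exact (Nat.le_mul_of_pos_left e hp.pos).trans (Nat.le_add_right _ _)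
    obtain ⟨d, hd⟩ := Nat.exists_eq_add_of_le h2
    rw [hd, Nat.add_sub_cancel_left, hq, Nat.add_sub_cancel]
    have h3 : r * t = t * r := mul_comm r t
    rw [h3, hd, hq] at h1
    -- h1 : (q + 1) * e + 1 = e + d
    have h4 : t * q * r = (e + d) * q := by rw [← hd]; ring
    rw [h4]
    nlinarith
  have hs0 : ¬ p ∣ s := by
    intro h
    have h1 : p ∣ s * r + 1 := by rw [hsk]; exact Dvd.intro _ rfl
    exact hp.one_lt.ne' (Nat.dvd_one.1 ((Nat.dvd_add_right (Dvd.dvd.mul_right h r)).1 h1))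
  have hs1 : ¬ s ≡ 1 [MOD p] := by
    intro h
    have h1 : s * r + 1 ≡ 1 * r + 1 [MOD p] := (h.mul_right r).add_right 1
    rw [hsk, one_mul] at h1
    have h2 : p * k ≡ 0 [MOD p] := (Nat.modEq_zero_iff_dvd).2 (Dvd.intro _ rfl)
    have h3 : r + 1 ≡ 0 [MOD p] := h1.symm.trans h2
    have h4 := (Nat.modEq_zero_iff_dvd).1 h3
    have := Nat.le_of_dvd (by omega) h4
    omega
  -- signs
  have sgl : ∀ a b : K, a ≠ 0 → b ≠ 0 → Nr p a b → Nr p (-a) b := by
    intro a b ha hb h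
    have h1 := ss a b (-1) 1 ha hb hm0 one_ne_zero h
    rwa [hm1, one_pow, mul_one, mul_neg_one] at h1
  have sgr : ∀ a b : K, a ≠ 0 → b ≠ 0 → Nr p a b → Nr p a (-b) := fun a b ha hb h =>
    sym _ _ (neg_ne_zero.2 hb) ha (sgl b a hb ha (sym a b ha hb h))
  -- `D - u` is `u ^ s` up to `p`-th powers
  have hw : ∀ D u v : K, u ≠ 0 → D - u ≠ 0 → v ^ p = u * (D - u) ^ r →
      ∃ x : K, x ≠ 0 ∧ (D - u) * x ^ p = u ^ s := by
    intro D u v hu hw h
    have hv : v ≠ 0 := by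
      rintro rfl
      rw [zero_pow hp.ne_zero] at h
      exact (mul_ne_zero hu (pow_ne_zero _ hw)) h.symm
    refine ⟨v ^ s * ((D - u) ^ k)⁻¹, mul_ne_zero (pow_ne_zero _ hv) (inv_ne_zero (pow_ne_zero _ hw)), ?_⟩
    have h1 : (v ^ s) ^ p = u ^ s * (D - u) ^ (s * r) := by
      rw [← pow_mul, mul_comm s p, pow_mul, h, mul_pow, ← pow_mul, mul_comm r s]
    rw [mul_pow, h1, inv_pow, ← pow_mul, mul_comm k p, ← hsk]
    have h2 : (D - u) ^ (s * r + 1) ≠ 0 := pow_ne_zero _ hw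
    have h3 : (D - u) ^ (s * r) ≠ 0 := pow_ne_zero _ hw
    rw [pow_succ] at h2 ⊢
    field_simp
  -- the first part
  have key : ∀ D u v : K, D ≠ 0 → u ≠ 0 → v ^ p = u * (D - u) ^ r → Nr p u D ∧ Nr p D u := by
    intro D u v hD hu h
    by_cases h0 : D - u = 0
    · have h1 : u = D := (sub_eq_zero.1 h0).symm
      rw [h1]
      exact ⟨(one D hD).1, (one D hD).1⟩
    · obtain ⟨x, hx, hxs⟩ := hw D u v hu h0 h
      have huD : u / D ≠ 0 := div_ne_zero hu hD
      have h1 := st (u / D) huD (by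
        intro h2
        apply h0
        rw [div_eq_one_iff_eq hD] at h2
        rw [h2, sub_self])
      have h2 : (1 : K) - u / D = (D - u) / D := by
        field_simp
      rw [h2] at h1
      have hwD : (D - u) / D ≠ 0 := div_ne_zero h0 hD
      have h3 := ss _ _ 1 x huD hwD one_ne_zero hx h1
      have h4 : (D - u) / D * x ^ p = u ^ s / D := by
        rw [← hxs]
        ring
      rw [one_pow, mul_one, h4] at h3
      have husD : u ^ s / D ≠ 0 := div_ne_zero (pow_ne_zero _ hu) hD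
      have h5 := zz _ _ huD huD (one _ huD).1 1 (-(s : ℤ))
      rw [zpow_one, zpow_neg, zpow_natCast] at h5
      have h6 := mulr _ _ _ huD husD (inv_ne_zero (pow_ne_zero s huD)) h3 h5
      have h7 : u ^ s / D * ((u / D) ^ s)⁻¹ = D ^ s / D := by
        rw [div_pow]
        field_simp
      rw [h7] at h6
      -- `D^s / D` to the power `m`, `m (s - 1) ≡ 1`
      have hDs : D ^ s / D ≠ 0 := div_ne_zero (pow_ne_zero _ hD) hD
      obtain ⟨m, e, hme⟩ : ∃ m e : ℤ, m * ((s : ℤ) - 1) = 1 + p * e := by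
        have hnd : ¬ (p : ℤ) ∣ (s : ℤ) - 1 := by
          intro h
          apply hs1
          have h10 : (1 : ℤ) ≡ s [ZMOD p] := (Int.modEq_iff_dvd).2 h
          exact ((Int.natCast_modEq_iff).1 (by push_cast; exact h10)).symm
        have hcop : IsCoprime (p : ℤ) ((s : ℤ) - 1) :=
          (Irreducible.coprime_iff_not_dvd (Nat.prime_iff_prime_int.1 hp).irreducible).2 hnd
        obtain ⟨u', v', h10⟩ := hcop
        exact ⟨v', -u', by linarith⟩
      have h8 := zz _ _ huD hDs h6 1 m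
      have h9 : (D ^ s / D) ^ m = D * (D ^ e) ^ p := by
        rw [← zpow_natCast D s, div_eq_mul_inv, ← zpow_neg_one, ← zpow_add₀ hD, ← zpow_mul, ← zpow_natCast (D ^ e) p, ← zpow_mul,
          ← zpow_one_add₀ hD]
        congr 1
        linarith
      rw [zpow_one, h9] at h8
      have h11 := ss _ _ 1 (D ^ e)⁻¹ huD (mul_ne_zero hD (pow_ne_zero _ (zpow_ne_zero e hD))) one_ne_zero
        (inv_ne_zero (zpow_ne_zero e hD)) h8
      rw [one_pow, mul_one, mul_assoc, ← mul_pow, mul_inv_cancel₀ (zpow_ne_zero e hD), one_pow, mul_one] at h11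
      have h12 := mulr D _ _ hD huD hD (sym _ _ huD hD h11) (one D hD).1
      rw [div_mul_cancel₀ _ hD] at h12
      exact ⟨sym _ _ hD hu h12, h12⟩
  intro D u₁ v₁ u₂ v₂ hD hu1 hu2 h1 h2
  refine ⟨?_, (key D u₁ v₁ hD hu1 h1).1, (key D u₁ v₁ hD hu1 h1).2⟩
  by_cases he : u₁ = u₂
  · rw [← he]
    exact (one u₁ hu1).1
  by_cases h01 : D - u₁ = 0
  · have h3 : u₁ = D := (sub_eq_zero.1 h01).symm
    rw [h3]
    exact (key D u₂ v₂ hD hu2 h2).2
  by_cases h02 : D - u₂ = 0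
  · have h3 : u₂ = D := (sub_eq_zero.1 h02).symm
    rw [h3]
    exact (key D u₁ v₁ hD hu1 h1).1
  have hc : u₁ - u₂ ≠ 0 := sub_ne_zero.2 he
  -- Steinberg relation for a difference
  have dif : ∀ a b : K, a ≠ 0 → b ≠ 0 → a - b ≠ 0 → Nr p (a / (a - b)) (b / (a - b)) := by
    intro a b ha hb hab
    have h3 := st (a / (a - b)) (div_ne_zero ha hab) (by
      intro h4
      rw [div_eq_one_iff_eq hab] at h4
      apply hb
      linear_combination h4)
    have h4 : 1 - a / (a - b) = -(b / (a - b)) := by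
      field_simp
      ring
    rw [h4] at h3
    have h5 := sgr _ _ (div_ne_zero ha hab) (neg_ne_zero.2 (div_ne_zero hb hab)) h3
    rwa [neg_neg] at h5
  have hA := dif u₁ u₂ hu1 hu2 hc
  have hcc : (D - u₂) - (D - u₁) = u₁ - u₂ := by ring
  have hB := dif (D - u₂) (D - u₁) h02 h01 (by rw [hcc]; exact hc)
  rw [hcc] at hB
  obtain ⟨x₁, hx1, hxs1⟩ := hw D u₁ v₁ hu1 h01 h1
  obtain ⟨x₂, hx2, hxs2⟩ := hw D u₂ v₂ hu2 h02 h2
  have hC := ss _ _ x₂ x₁ (div_ne_zero h02 hc) (div_ne_zero h01 hc) hx2 hx1 hB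
  rw [div_mul_eq_mul_div, div_mul_eq_mul_div, hxs1, hxs2] at hC
  exact rt s u₁ u₂ (u₁ - u₂) hs0 hs1 hu1 hu2 hc hA hC

end Pool.Agent.Q190.CF
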