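import Pool.Agent.Q7.CF.Stm
import Pool.Agent.Q198.CJ.RT

/-!
# Project CF (helper7), job RTG: the general form of the sum of two trivial symbols (after `Pool/Agent/Q198/CJ/RT.lean` of helper198)
-/

set_option autoImplicit false

namespace Pool.Agent.Q190.CF

open Polynomial Pool.Agent.Q7.CF
open Pool.Agent.Q7.CJ (Nr S_RS)
open Pool.Agent.Q198.CJ (trace_zero tw_pow tw_mul_pow finrank_fixed op_inv)
open scoped TensorProduct

section mon

variable {K : Type} [Field K] {R : Type} [Ring R] [Algebra K R]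

theorem tw_pow_left (X Z : R) (c : K) (h : Z * X = c • (X * Z)) (n : ℕ) :
    Z * X ^ n = c ^ n • (X ^ n * Z) := by
  induction n with
  | zero => simp
  | succ n ih =>
    rw [pow_succ, ← mul_assoc, ih, smul_mul_assoc, mul_assoc, h, mul_smul_comm, smul_smul, ← mul_assoc, pow_succ]

theorem tw_pp (X Y : R) (ζ : K) (h : Y * X = ζ • (X * Y)) (x y : ℕ) :
    Y ^ y * X ^ x = ζ ^ (x * y) • (X ^ x * Y ^ y) := by
  rw [tw_pow_left X (Y ^ y) (ζ ^ y) (tw_pow X Y ζ h y) x, ← pow_mul, mul_comm y x]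

/-- twisted commutation of monomials -/
theorem tw_mon (X Y : R) (ζ : K) (hζ : ζ ≠ 0) (h : Y * X = ζ • (X * Y)) (x y x' y' : ℕ) :
    (X ^ x' * Y ^ y') * (X ^ x * Y ^ y) =
      ζ ^ ((x : ℤ) * y' - x' * y) • ((X ^ x * Y ^ y) * (X ^ x' * Y ^ y')) := by
  have h1 : ∀ x y x' y' : ℕ, (X ^ x' * Y ^ y') * (X ^ x * Y ^ y) =
      ζ ^ (x * y') • (X ^ (x + x') * Y ^ (y + y')) := by
    intro x y x' y'
    calc (X ^ x' * Y ^ y') * (X ^ x * Y ^ y) = X ^ x' * (Y ^ y' * X ^ x) * Y ^ y := by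
          simp only [mul_assoc]
      _ = ζ ^ (x * y') • (X ^ x' * (X ^ x * Y ^ y') * Y ^ y) := by
          rw [tw_pp X Y ζ h x y', mul_smul_comm, smul_mul_assoc]
      _ = ζ ^ (x * y') • (X ^ (x + x') * Y ^ (y + y')) := by
          rw [← mul_assoc (X ^ x'), ← pow_add, mul_assoc, ← pow_add, add_comm x' x, add_comm y' y]
  rw [h1 x y x' y', h1 x' y' x y, smul_smul, add_comm x' x, add_comm y' y]
  congr 1
  rw [← zpow_natCast ζ (x' * y), ← zpow_add₀ hζ, ← zpow_natCast ζ (x * y')]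
  congr 1
  push_cast
  ring

/-- powers of monomials -/
theorem mon_pow {p : ℕ} (hp : Odd p) (X Y : R) (ζ α β : K) (hζ : ζ ^ p = 1) (h : Y * X = ζ • (X * Y))
    (hX : X ^ p = α • (1 : R)) (hY : Y ^ p = β • (1 : R)) (x y : ℕ) :
    (X ^ x * Y ^ y) ^ p = (α ^ x * β ^ y) • (1 : R) := by
  rw [tw_mul_pow (X ^ x) (Y ^ y) _ (tw_pp X Y ζ h x y)]
  obtain ⟨m, hm⟩ := hp
  have h3 : p * (p - 1) / 2 = p * m := by
    rw [hm, Nat.add_sub_cancel, mul_comm (2 * m + 1) (2 * m), mul_assoc, Nat.mul_div_cancel_left _ (by norm_num)]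
    ring
  have h4 : (ζ ^ (x * y)) ^ (p * (p - 1) / 2) = 1 := by
    rw [h3, ← pow_mul, show x * y * (p * m) = p * (x * y * m) by ring, pow_mul, hζ, one_pow]
  rw [h4, one_smul, ← pow_mul, ← pow_mul, mul_comm x p, mul_comm y p, pow_mul, pow_mul, hX, hY,
    _root_.smul_pow, _root_.smul_pow, one_pow, one_pow, smul_mul_smul_comm, one_mul]

/-- the scalars -/
theorem sc (a b c : K) (hc : c ≠ 0) (s t x y z w : ℕ) :
    (a / c) ^ x * (b / c) ^ y * (((b ^ s / c) ^ t) ^ z * (a ^ s / c) ^ w) =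
      a ^ (x + s * w) * b ^ (y + s * t * z) * (c ^ (x + y + t * z + w))⁻¹ := by
  simp only [div_pow, ← pow_mul, pow_add]
  field_simp

end mon

theorem rtg : S_RS → S_RTG := by
  intro hRS p _ hp2 K _ _ ζ hζ s a b c hs hs1 ha hb hc h1 h2
  obtain ⟨-, -, -, zz, ss, -, -, -, key, rep⟩ := hRS p hp2 K ζ hζ
  have hp := (Fact.out (p := p.Prime))
  have hodd := hp.odd_of_ne_two hp2
  have hζ0 : ζ ≠ 0 := hζ.ne_zero hp.ne_zero
  -- the exponents
  obtain ⟨q, hq⟩ : ∃ q, p = q + 1 := ⟨p - 1, (Nat.sub_add_cancel hp.one_le).symm⟩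
  obtain ⟨t, k, htk⟩ : ∃ t k : ℕ, s * t = 1 + p * k := by
    have hcop : Nat.Coprime s p := ((Nat.Prime.coprime_iff_not_dvd hp).2 hs).symm
    obtain ⟨t, -, ht⟩ := Nat.exists_mul_mod_eq_one_of_coprime hcop hp.one_lt
    refine ⟨t, s * t / p, ?_⟩
    have := Nat.div_add_mod (s * t) p
    rw [ht] at this
    omega
  have ht0 : 1 ≤ t := by
    rcases Nat.eq_zero_or_pos t with h | h
    · rw [h, mul_zero] at htk
      omega
    · exact h
  obtain ⟨y, l, hyl⟩ : ∃ y l : ℕ, y * t = y + 1 + p * l := by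
    have hnd : ¬ p ∣ t - 1 := by
      rintro ⟨e, he⟩
      apply hs1
      have h3 : t = 1 + p * e := by omega
      have h4 : s * 1 ≡ s * t [MOD p] := by
        refine Nat.ModEq.mul_left s ?_
        rw [h3]
        change 1 % p = (1 + p * e) % p
        rw [Nat.add_mul_mod_self_left]
      rw [mul_one] at h4
      refine h4.trans ?_
      rw [htk]
      change (1 + p * k) % p = 1 % p
      rw [Nat.add_mul_mod_self_left]
    have hcop : Nat.Coprime (t - 1) p := ((Nat.Prime.coprime_iff_not_dvd hp).2 hnd).symm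
    obtain ⟨y, -, hy⟩ := Nat.exists_mul_mod_eq_one_of_coprime hcop hp.one_lt
    refine ⟨y, (t - 1) * y / p, ?_⟩
    have h3 := Nat.div_add_mod ((t - 1) * y) p
    rw [hy] at h3
    have h4 : y * t = y + (t - 1) * y := by
      obtain ⟨t', rfl⟩ : ∃ t', t = t' + 1 := ⟨t - 1, by omega⟩
      rw [Nat.add_sub_cancel]
      ring
    omega
  have hbs : b ^ s / c ≠ 0 := div_ne_zero (pow_ne_zero _ hb) hc
  have has : a ^ s / c ≠ 0 := div_ne_zero (pow_ne_zero _ ha) hc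
  have h2' : Nr p ((b ^ s / c) ^ t) (a ^ s / c) := by
    have := zz _ _ hbs has h2 t 1
    rwa [zpow_natCast, zpow_one] at this
  obtain ⟨A₁, B₁, hA1, hB1, hBA1⟩ := rep _ _ (div_ne_zero ha hc) (div_ne_zero hb hc) h1
  obtain ⟨A₂, B₂, hA2, hB2, hBA2⟩ := rep _ _ (pow_ne_zero t hbs) has h2'
  let M : ℕ → ℕ → ℕ → ℕ → Module.End K ((Fin p → K) ⊗[K] (Fin p → K)) := fun x y z w =>
    TensorProduct.map (A₁ ^ x * B₁ ^ y) (A₂ ^ z * B₂ ^ w)
  have hMt : ∀ x y z w x' y' z' w' : ℕ, M x' y' z' w' * M x y z w =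
      ζ ^ (((x : ℤ) * y' - x' * y) + (z * w' - z' * w)) • (M x y z w * M x' y' z' w') := by
    intro x y z w x' y' z' w'
    change TensorProduct.map (A₁ ^ x' * B₁ ^ y') (A₂ ^ z' * B₂ ^ w') * TensorProduct.map (A₁ ^ x * B₁ ^ y) (A₂ ^ z * B₂ ^ w) =
      _ • (TensorProduct.map (A₁ ^ x * B₁ ^ y) (A₂ ^ z * B₂ ^ w) * TensorProduct.map (A₁ ^ x' * B₁ ^ y') (A₂ ^ z' * B₂ ^ w'))
    rw [← TensorProduct.map_mul, ← TensorProduct.map_mul, tw_mon A₁ B₁ ζ hζ0 hBA1 x y x' y', tw_mon A₂ B₂ ζ hζ0 hBA2 z w z' w',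
      TensorProduct.map_smul_left, TensorProduct.map_smul_right, smul_smul, ← zpow_add₀ hζ0]
  have hMp : ∀ x y z w : ℕ, (M x y z w) ^ p = (a ^ (x + s * w) * b ^ (y + s * t * z) * (c ^ (x + y + t * z + w))⁻¹) •
      (1 : Module.End K ((Fin p → K) ⊗[K] (Fin p → K))) := by
    intro x y z w
    change (TensorProduct.map (A₁ ^ x * B₁ ^ y) (A₂ ^ z * B₂ ^ w)) ^ p = _
    rw [TensorProduct.map_pow, mon_pow hodd A₁ B₁ ζ _ _ hζ.pow_eq_one hBA1 hA1 hB1, mon_pow hodd A₂ B₂ ζ _ _ hζ.pow_eq_one hBA2 hA2 hB2,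
      TensorProduct.map_smul_left, TensorProduct.map_smul_right, smul_smul, TensorProduct.map_one, sc a b c hc]
  -- the operators
  have ha0 : ∀ n, a ^ n ≠ 0 := fun n => pow_ne_zero n ha
  have hb0 : ∀ n, b ^ n ≠ 0 := fun n => pow_ne_zero n hb
  have hc0 : ∀ n, c ^ n ≠ 0 := fun n => pow_ne_zero n hc
  set κ : K := a ^ s * b ^ (s * (1 + k * q)) * (c ^ (s + 1 + k * q))⁻¹ with hκ
  have hκ0 : κ ≠ 0 := mul_ne_zero (mul_ne_zero (ha0 _) (hb0 _)) (inv_ne_zero (hc0 _))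
  have hQ0 : (M (s * q) s (s * q) 1) ^ p = (κ ^ p) • (1 : Module.End K ((Fin p → K) ⊗[K] (Fin p → K))) := by
    rw [hMp, hκ]
    congr 1
    have e1 : s * q + s * 1 = p * s := by rw [hq]; ring
    have e2 : s + s * t * (s * q) = p * (s * (1 + k * q)) := by rw [htk, hq]; ring
    have e3 : s * q + s + t * (s * q) + 1 = p * (s + 1 + k * q) := by
      rw [show t * (s * q) = (s * t) * q by ring, htk, hq]
      ring
    rw [e1, e2, e3, pow_mul' a, pow_mul' b, pow_mul' c, mul_pow, mul_pow, inv_pow]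
  set Q : Module.End K ((Fin p → K) ⊗[K] (Fin p → K)) := κ⁻¹ • M (s * q) s (s * q) 1 with hQ
  have hQp : Q ^ p = 1 := by
    rw [hQ, _root_.smul_pow, hQ0, smul_smul, inv_pow, inv_mul_cancel₀ (pow_ne_zero _ hκ0), one_smul]
  set α : K := b ^ (y * (1 + k * q)) * (c ^ (1 + y + l * q))⁻¹ with hα
  have hα0 : α ≠ 0 := mul_ne_zero (hb0 _) (inv_ne_zero (hc0 _))
  set A : Module.End K ((Fin p → K) ⊗[K] (Fin p → K)) := M 1 y (y * q) 0 with hA
  have hAp : A ^ p = (a * α ^ p) • (1 : Module.End K ((Fin p → K) ⊗[K] (Fin p → K))) := by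
    rw [hA, hMp, hα]
    congr 1
    have e1 : 1 + s * 0 = 1 := by ring
    have e2 : y + s * t * (y * q) = p * (y * (1 + k * q)) := by rw [htk, hq]; ring
    have e3 : 1 + y + t * (y * q) + 0 = p * (1 + y + l * q) := by
      rw [show t * (y * q) = (y * t) * q by ring, hyl, hq]
      ring
    rw [e1, e2, e3, pow_one, pow_mul' b, pow_mul' c, mul_pow, inv_pow, mul_assoc]
  set β : K := b ^ (y + l + k * y * q) * (c ^ (t * y))⁻¹ with hβ
  have hβ0 : β ≠ 0 := mul_ne_zero (hb0 _) (inv_ne_zero (hc0 _))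
  set B : Module.End K ((Fin p → K) ⊗[K] (Fin p → K)) := M 0 (t * y) (y * q) 0 with hB
  have hBp : B ^ p = (b * β ^ p) • (1 : Module.End K ((Fin p → K) ⊗[K] (Fin p → K))) := by
    rw [hB, hMp, hβ]
    congr 1
    have e1 : 0 + s * 0 = 0 := by ring
    have e2 : t * y + s * t * (y * q) = 1 + p * (y + l + k * y * q) := by
      rw [htk, mul_comm t y, hyl, hq]; ring
    have e3 : 0 + t * y + t * (y * q) + 0 = p * (t * y) := by
      rw [hq]
      ring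
    rw [e1, e2, e3, pow_zero, one_mul, pow_add, pow_one, pow_mul' b, pow_mul' c, mul_pow, inv_pow, mul_assoc]
  have hz : ∀ e : ℤ, (p : ℤ) ∣ e → ζ ^ e = 1 := fun e he => (hζ.zpow_eq_one_iff_dvd e).2 he
  have hqz : (p : ℤ) = q + 1 := by exact_mod_cast hq
  have htz : (s : ℤ) * t = 1 + p * k := by exact_mod_cast htk
  have hyz : (y : ℤ) * t = y + 1 + p * l := by exact_mod_cast hyl
  have hQA : Commute Q A := by
    change κ⁻¹ • M (s * q) s (s * q) 1 * M 1 y (y * q) 0 = M 1 y (y * q) 0 * κ⁻¹ • M (s * q) s (s * q) 1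
    rw [smul_mul_assoc, mul_smul_comm, hMt 1 y (y * q) 0 (s * q) s (s * q) 1, hz _ ?_, one_smul]
    refine ⟨k * y - l * s - s * y + y, ?_⟩
    push_cast
    rw [hqz] at htz hyz ⊢
    linear_combination (y : ℤ) * htz - (s : ℤ) * hyz
  have hQB : Commute Q B := by
    change κ⁻¹ • M (s * q) s (s * q) 1 * M 0 (t * y) (y * q) 0 = M 0 (t * y) (y * q) 0 * κ⁻¹ • M (s * q) s (s * q) 1
    rw [smul_mul_assoc, mul_smul_comm, hMt 0 (t * y) (y * q) 0 (s * q) s (s * q) 1, hz _ ?_, one_smul]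
    refine ⟨- (q * y * k), ?_⟩
    push_cast
    linear_combination (-(q : ℤ) * y) * htz
  have hBA : B * A = (ζ ^ (t * y)) • (A * B) := by
    have h3 := hMt 1 y (y * q) 0 0 (t * y) (y * q) 0
    have h4 : ζ ^ ((((1 : ℕ) : ℤ) * ((t * y : ℕ) : ℤ) - ((0 : ℕ) : ℤ) * (y : ℤ)) +
        (((y * q : ℕ) : ℤ) * ((0 : ℕ) : ℤ) - ((y * q : ℕ) : ℤ) * ((0 : ℕ) : ℤ))) = ζ ^ (t * y) := by
      rw [← zpow_natCast ζ (t * y)]
      congr 1
      push_cast
      ring
    rw [h4] at h3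
    exact h3
  have hQU : Q * M 1 0 0 0 = (ζ ^ s) • (M 1 0 0 0 * Q) := by
    have h3 := hMt 1 0 0 0 (s * q) s (s * q) 1
    have h4 : ζ ^ ((((1 : ℕ) : ℤ) * ((s : ℕ) : ℤ) - ((s * q : ℕ) : ℤ) * ((0 : ℕ) : ℤ)) +
        (((0 : ℕ) : ℤ) * ((1 : ℕ) : ℤ) - ((s * q : ℕ) : ℤ) * ((0 : ℕ) : ℤ))) = ζ ^ s := by
      rw [← zpow_natCast ζ s]
      congr 1
      push_cast
      ring
    rw [h4] at h3
    rw [hQ, smul_mul_assoc, mul_smul_comm, h3, smul_comm]
  have hU0 : a ^ (1 + s * 0) * b ^ (0 + s * t * 0) * (c ^ (1 + 0 + t * 0 + 0))⁻¹ ≠ 0 :=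
    mul_ne_zero (mul_ne_zero (ha0 _) (hb0 _)) (inv_ne_zero (hc0 _))
  obtain ⟨U', hUU, hUU', -⟩ := op_inv hp.pos (M 1 0 0 0) _ hU0 (hMp 1 0 0 0)
  have hζs : IsPrimitiveRoot (ζ ^ s) p := hζ.pow_of_coprime s ((Nat.Prime.coprime_iff_not_dvd hp).2 hs).symm
  have hζt : IsPrimitiveRoot (ζ ^ (t * y)) p := by
    refine hζ.pow_of_coprime _ ((Nat.Prime.coprime_iff_not_dvd hp).2 ?_).symm
    intro h
    rcases (Nat.Prime.dvd_mul hp).1 h with h | h
    · have h3 : p ∣ 1 + p * k := by rw [← htk]; exact Dvd.dvd.mul_left h s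
      exact hp.one_lt.ne' (Nat.dvd_one.1 ((Nat.dvd_add_left (Dvd.intro _ rfl)).1 h3))
    · have h3 : p ∣ y + 1 + p * l := by rw [← hyl]; exact Dvd.dvd.mul_right h t
      have h4 := (Nat.dvd_add_left (Dvd.intro l rfl)).1 h3
      exact hp.one_lt.ne' (Nat.dvd_one.1 ((Nat.dvd_add_right h).1 h4))
  have htr : ∀ n, 0 < n → n < p → LinearMap.trace K _ (Q ^ n) = 0 := by
    intro n hn hnp
    refine trace_zero (Q ^ n) (M 1 0 0 0) U' ((ζ ^ s) ^ n) (hζs.pow_ne_one_of_pos_of_lt hn.ne' hnp) hUU hUU' ?_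
    exact tw_pow (M 1 0 0 0) Q _ hQU n
  have hdim : Module.finrank K ((Fin p → K) ⊗[K] (Fin p → K)) = p * p := by
    rw [Module.finrank_tensorProduct, Module.finrank_fin_fun]
  have hfin := finrank_fixed hp hdim Q hQp htr
  -- the restrictions
  have hinv : ∀ X : Module.End K ((Fin p → K) ⊗[K] (Fin p → K)), Commute Q X → ∀ w ∈ LinearMap.ker (Q - 1), X w ∈ LinearMap.ker (Q - 1) := by
    intro X hX w hw
    rw [LinearMap.mem_ker, LinearMap.sub_apply, Module.End.one_apply, sub_eq_zero] at hw ⊢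
    have h3 : Q (X w) = X (Q w) := LinearMap.congr_fun hX.eq w
    rw [h3, hw]
  have hpw : ∀ (X : Module.End K ((Fin p → K) ⊗[K] (Fin p → K))) (hX : Commute Q X) (d : K), X ^ p = d • 1 →
      (X.restrict (hinv X hX)) ^ p = d • (1 : Module.End K (LinearMap.ker (Q - 1))) := by
    intro X hX d hd
    have h3 : ∀ n : ℕ, ∀ w : LinearMap.ker (Q - 1), (((X.restrict (hinv X hX)) ^ n) w : (Fin p → K) ⊗[K] (Fin p → K)) = (X ^ n) w := by
      intro n
      induction n with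
      | zero => intro w; rfl
      | succ n ih =>
        intro w
        rw [pow_succ, pow_succ, Module.End.mul_apply, Module.End.mul_apply, ih]
        rfl
    ext1 w
    apply Subtype.ext
    rw [h3, hd]
    rfl
  have hfinal : Nr p (a * α ^ p) (b * β ^ p) := by
    refine key (LinearMap.ker (Q - 1)) hfin (A.restrict (hinv A hQA)) (B.restrict (hinv B hQB)) (a * α ^ p) (b * β ^ p) (ζ ^ (t * y))
      (mul_ne_zero ha (pow_ne_zero _ hα0)) (mul_ne_zero hb (pow_ne_zero _ hβ0)) hζt (hpw A hQA _ hAp) (hpw B hQB _ hBp) ?_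
    ext1 w
    apply Subtype.ext
    exact LinearMap.congr_fun hBA (w : (Fin p → K) ⊗[K] (Fin p → K))
  have h5 := ss _ _ α⁻¹ β⁻¹ (mul_ne_zero ha (pow_ne_zero _ hα0)) (mul_ne_zero hb (pow_ne_zero _ hβ0)) (inv_ne_zero hα0)
    (inv_ne_zero hβ0) hfinal
  rw [mul_assoc, mul_assoc, ← mul_pow, ← mul_pow, mul_inv_cancel₀ hα0, mul_inv_cancel₀ hβ0, one_pow, mul_one, mul_one] at h5
  exact h5

end Pool.Agent.Q190.CF
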